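import Pool.Agent.Results.MP_13bc7b_nt.EndomorphismsNearRays
import Pool.Agent.V11300.PA.Classes

/-!
# No preperiodic points of bounded degree for ALL endomorphisms of `P^N` in the residue classes of almost every point

Let `d ≥ d₀(N, D)`, let `M = (N + 1) binom(N + d, N)` be the number of the coefficients of a system of `N + 1` forms of
degree `d` in `N + 1` variables, `q` a prime number and `κ > 0`. For all `α ∈ ℤ_q ^ M` outside a set of Hausdorff dimension
at most `κ (M - N)` and all large `f`, ALL integral vectors `c` with `|c_i| ≤ q ^ (κ f)` and `c_i ≡ α_i` modulo `q ^ f` for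
all `i` are good: if the system with the coefficients `c` defines an endomorphism of `P^N`, then this endomorphism
increases the heights of all points of degree at most `D` and has no preperiodic point of degree at most `D`. Outside a set
of dimension at most `κ (M - 1)` all these systems define endomorphisms. (The space `ℤ_q ^ M` has dimension `M`; for
`1 < κ < M / (M - N)` each class contains about `(2 q ^ ((κ - 1) f)) ^ M` of these vectors.)
-/

set_option autoImplicit false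

open MeasureTheory

namespace Pool.Agent.Results.MP_13bc7b_nt.EndomorphismsInResidueClasses

open AlmostAllEndomorphisms EndomorphismsNearRays Pool.Agent.W276.GE

/-- `|c_i| ≤ q ^ (κ f)` and `c_i ≡ α_i` modulo `q ^ f` for all indices `i`. -/
def InClass {I : Type} (q : ℕ) [Fact q.Prime] (κ : ℝ) (α : I → ℤ_[q]) (f : ℕ) (c : I → ℤ) : Prop :=
  (∀ i, |(c i : ℝ)| ≤ (q : ℝ) ^ (κ * f)) ∧ ∀ i, (q : ℤ_[q]) ^ f ∣ (c i : ℤ_[q]) - α i

/-- **Theorem.** Let `N, D ≥ 1`. There is `d₀` such that for all `d ≥ d₀`, with `M = (N + 1) binom(N + d, N)`, all primes `q`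
and all `κ > 0`: (1) for all `α ∈ ℤ_q ^ M` outside a set of Hausdorff dimension at most `κ (M - N)` and all large `f`, ALL
integral vectors `c` with `|c_i| ≤ q ^ (κ f)` and `c ≡ α` modulo `q ^ f` are good; (2) for all `α` outside a set of
dimension at most `κ (M - 1)` and all large `f`, ALL these `c` define endomorphisms of `P^N` which increase all heights of
points of degree at most `D` and have no preperiodic point of degree at most `D`. -/
theorem result (N D : ℕ) (hN : 1 ≤ N) (hD : 1 ≤ D) : ∃ d₀ : ℕ, ∀ d : ℕ, d₀ ≤ d → ∀ M : ℕ,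
    M = (N + 1) * (N + d).choose N → ∀ (q : ℕ) [Fact q.Prime] (κ : ℝ), 0 < κ →
    (∃ X : Set (Ix N d → ℤ_[q]), dimH X ≤ ENNReal.ofReal (κ * ((M : ℝ) - N)) ∧
      ∀ α : Ix N d → ℤ_[q], α ∉ X → ∃ f₀ : ℕ, ∀ f : ℕ, f₀ ≤ f → ∀ c : Ix N d → ℤ,
        InClass q κ α f c → Good D c) ∧
    (∃ X : Set (Ix N d → ℤ_[q]), dimH X ≤ ENNReal.ofReal (κ * ((M : ℝ) - 1)) ∧
      ∀ α : Ix N d → ℤ_[q], α ∉ X → ∃ f₀ : ℕ, ∀ f : ℕ, f₀ ≤ f → ∀ c : Ix N d → ℤ,
        InClass q κ α f c →
          IsMorphism (sys c) ∧ IncreasesHeights D (sys c) ∧ ¬ HasPreperiodicPoint D (sys c)) := by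
  classical
  obtain ⟨d₀, h₀⟩ := AlmostAllEndomorphisms.result N D hN hD
  refine ⟨d₀, fun d hd M hM q _ κ hκ => ?_⟩
  obtain ⟨h1, h2, ⟨C, hC, h3⟩, -⟩ := h₀ d hd
  have hMN : N + 1 ≤ M := by
    rw [hM]
    exact Nat.le_mul_of_pos_right _ (Nat.choose_pos (by omega))
  have hMNr : (N : ℝ) + 1 ≤ M := by exact_mod_cast hMN
  have hN1 : (1 : ℝ) ≤ N := by exact_mod_cast hN
  have hfinS : ∀ H : ℕ, (Sys N d H).Finite := fun H => Set.finite_of_ncard_pos (by
    rw [h1 H]
    positivity)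
  -- a general theorem
  have gen : ∀ (P : (Fin (N + 1) → MvPolynomial (Fin (N + 1)) ℤ) → Prop) (k : ℕ), k ≤ M →
      (∀ H : ℕ, 1 ≤ H → ({F | F ∈ Sys N d H ∧ P F}.ncard : ℝ) ≤ C * (H : ℝ) ^ (M - k)) →
      ∃ X : Set (Ix N d → ℤ_[q]), dimH X ≤ ENNReal.ofReal (κ * ((M : ℝ) - k)) ∧
        ∀ α : Ix N d → ℤ_[q], α ∉ X → ∃ f₀ : ℕ, ∀ f : ℕ, f₀ ≤ f → ∀ c : Ix N d → ℤ,
          InClass q κ α f c → ¬ P (sys c) := by
    intro P k hk hP
    have hkr : (k : ℝ) ≤ M := by exact_mod_cast hk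
    obtain ⟨X, hX1, hX2⟩ := Pool.Agent.V11300.PA.classes_int q (ι := Ix N d) (s := (M : ℝ) - k) (κ := κ)
      (by linarith) hκ (fun _ _ => {c | P (sys c)}) (fun _ => C) (by
        intro j f T hT
        have hsub : ∀ c ∈ {c : Ix N d → ℤ | c ∈ {c | P (sys c)} ∧ ∀ i, |c i| ≤ (T : ℤ)},
            sys c ∈ {F | F ∈ Sys N d T ∧ P F} := fun c hc => ⟨sys_mem c hc.2, hc.1⟩
        have hfin : {F | F ∈ Sys N d T ∧ P F}.Finite := (hfinS T).subset fun F hF => hF.1
        refine ⟨Set.Finite.of_injOn hsub sys_injective.injOn hfin, ?_⟩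
        have h4 := Set.ncard_le_ncard_of_injOn sys hsub sys_injective.injOn hfin
        calc ({c : Ix N d → ℤ | c ∈ {c | P (sys c)} ∧ ∀ i, |c i| ≤ (T : ℤ)}.ncard : ℝ)
            ≤ ({F | F ∈ Sys N d T ∧ P F}.ncard : ℝ) := by exact_mod_cast h4
          _ ≤ C * (T : ℝ) ^ (M - k) := hP T hT
          _ = C * (T : ℝ) ^ ((M : ℝ) - k) := by
              rw [← Real.rpow_natCast, Nat.cast_sub hk])
    refine ⟨X, hX1, fun α hα => ?_⟩
    obtain ⟨f₀, hf⟩ := hX2 α hα 0
    exact ⟨f₀, fun f hf1 c hc => hf f hf1 c hc.1 hc.2⟩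
  have hgood : ∀ (c : Ix N d → ℤ), ¬ (IsMorphism (sys c) ∧ ¬ IncreasesHeights D (sys c)) → Good D c := by
    intro c hc hm
    have h4 : IncreasesHeights D (sys c) := by
      by_contra hcon
      exact hc ⟨hm, hcon⟩
    have hbd : ∀ x, |c x| ≤ (((Finset.univ.sup fun x => (c x).natAbs : ℕ)) : ℤ) := by
      intro x
      rw [Int.abs_eq_natAbs]
      exact_mod_cast Finset.le_sup (f := fun x => (c x).natAbs) (Finset.mem_univ x)
    exact ⟨h4, h2 _ (sys c) (sys_mem c hbd) hm h4⟩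
  obtain ⟨X1, hX1, h5⟩ := gen (fun F => IsMorphism F ∧ ¬ IncreasesHeights D F) N (by omega)
    (fun H hH => by
      have h5 := (h3 H hH).2.1
      rw [hM]
      exact h5)
  obtain ⟨X2, hX2, h6⟩ := gen (fun F => ¬ IsMorphism F) 1 (by omega)
    (fun H hH => by
      have h5 := (h3 H hH).1
      rw [hM]
      exact h5)
  have w1 : ∀ α : Ix N d → ℤ_[q], α ∉ X1 → ∃ f₀ : ℕ, ∀ f : ℕ, f₀ ≤ f → ∀ c : Ix N d → ℤ,
      InClass q κ α f c → Good D c := by
    intro α hα
    obtain ⟨f₀, hf⟩ := h5 α hα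
    exact ⟨f₀, fun f hf1 c hc => hgood c (hf f hf1 c hc)⟩
  refine ⟨⟨X1, hX1, w1⟩, X1 ∪ X2, ?_, fun α hα => ?_⟩
  · rw [dimH_union, max_le_iff]
    constructor
    · refine hX1.trans (ENNReal.ofReal_le_ofReal ?_)
      exact mul_le_mul_of_nonneg_left (by linarith) hκ.le
    · refine hX2.trans (ENNReal.ofReal_le_ofReal (le_of_eq ?_))
      push_cast
      ring
  · obtain ⟨n1, hn1⟩ := w1 α (fun h => hα (Or.inl h))
    obtain ⟨n2, hn2⟩ := h6 α (fun h => hα (Or.inr h))
    refine ⟨max n1 n2, fun n hn c hc => ?_⟩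
    have hm : IsMorphism (sys c) := not_not.1 (hn2 n ((le_max_right _ _).trans hn) c hc)
    exact ⟨hm, hn1 n ((le_max_left _ _).trans hn) c hc hm⟩

end Pool.Agent.Results.MP_13bc7b_nt.EndomorphismsInResidueClasses
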