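import Pool.Agent.Results.MP_13bc7b_nt.AlmostAllEndomorphisms
import Pool.Agent.V35.WB

/-!
# No preperiodic points of bounded degree for ALL integral endomorphisms of `P^N` near almost every ray

Let `d ≥ d₀(N, D)`. The starting theorem `AlmostAllEndomorphisms` says that at most `C H ^ (M - N)` of the systems of
`N + 1` integral forms of degree `d` with coefficients at most `H`, `M = (N + 1) binom(N + d, N)` the number of the
coefficients, define an endomorphism of `P^N` which does not increase all heights of the points of degree at most `D`; an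
endomorphism which increases them has no preperiodic point of degree at most `D`. It says nothing about given systems. Here
we consider all integral coefficient vectors near the points `v_n α`, or near the whole ray, of a real vector `α`.
-/

set_option autoImplicit false

open MeasureTheory

namespace Pool.Agent.Results.MP_13bc7b_nt.EndomorphismsNearRays

open AlmostAllEndomorphisms Pool.Agent.V35.WM Pool.Agent.V35.WB Pool.Agent.W276.GE

/-- the index set of the coefficients of a system of `N + 1` forms of degree `d` in `N + 1` variables -/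
abbrev Ix (N d : ℕ) : Type := Fin (N + 1) × E (N + 1) d

/-- the system of the forms `∑_m c (i, m) x ^ m`, `i = 0, …, N` -/
noncomputable def sys {N d : ℕ} (c : Ix N d → ℤ) : Fin (N + 1) → MvPolynomial (Fin (N + 1)) ℤ :=
  fun i => ∑ m : E (N + 1) d, MvPolynomial.monomial (fs m) (c (i, m))

/-- If the system defines an endomorphism of `P^N`, then this endomorphism increases the heights of all points of degree at
most `D` and has no preperiodic point of degree at most `D`. -/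
def Good {N d : ℕ} (D : ℕ) (c : Ix N d → ℤ) : Prop :=
  IsMorphism (sys c) → IncreasesHeights D (sys c) ∧ ¬ HasPreperiodicPoint D (sys c)

lemma sys_eq {N d : ℕ} (c : Ix N d → ℤ) (i : Fin (N + 1)) : sys c i = pf (fun m => c (i, m)) := rfl

lemma sys_injective {N d : ℕ} : Function.Injective (sys : (Ix N d → ℤ) → _) := by
  intro c c' h
  funext x
  obtain ⟨i, m⟩ := x
  have h1 : pf (fun m => c (i, m)) = pf (fun m => c' (i, m)) := by
    rw [← sys_eq, ← sys_eq, h]
  have h2 := congrArg (cf d) h1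
  rw [cf_pf, cf_pf] at h2
  exact congrFun h2 m

lemma sys_mem {N d H : ℕ} (c : Ix N d → ℤ) (hc : ∀ x, |c x| ≤ (H : ℤ)) : sys c ∈ Sys N d H := by
  classical
  intro i
  refine ⟨pf_hom _, fun m => ?_⟩
  rw [sys_eq, pf, MvPolynomial.coeff_sum]
  by_cases hm : ∃ α : E (N + 1) d, fs α = m
  · obtain ⟨α, rfl⟩ := hm
    rw [Finset.sum_eq_single α]
    · rw [MvPolynomial.coeff_monomial, if_pos rfl]
      exact hc (i, α)
    · intro β _ hβ
      rw [MvPolynomial.coeff_monomial, if_neg]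
      intro he
      exact hβ (fs_injective he)
    · intro h
      exact absurd (Finset.mem_univ α) h
  · rw [Finset.sum_eq_zero]
    · rw [abs_zero]
      exact Int.natCast_nonneg H
    · intro β _
      rw [MvPolynomial.coeff_monomial, if_neg]
      exact fun he => hm ⟨β, he⟩

/-- **Theorem.** Let `N, D ≥ 1`. There is `d₀` such that for all `d ≥ d₀`, with `M = (N + 1) binom(N + d, N)` the number of
the coefficients: (1) for all sequences `v ≥ 1` of exponent of convergence at most `τ ≥ 0` and all `θ < 1` there is a set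
`E ⊆ ℝ ^ M` of Hausdorff dimension at most `(M - N + τ) / (1 - θ)`, and of Lebesgue measure zero if `θ < (N - τ) / M`, such
that for all `α` outside `E` and all large `n` ALL integral vectors `c` with `‖c - v_n α‖ ≤ (v_n) ^ θ` (maximum norm) are
good; (2) for `0 ≤ θ < 1` there is a set `E` of dimension at most `1 + (M - N) / (1 - θ)`, and of measure zero if this is
less than `M` (if `N ≥ 2` this is so for small `θ`), such that for all `α` outside `E` all but finitely many of the integral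
vectors `c` with `‖c - r α‖ ≤ r ^ θ` for some real `r > 0` are good; (3) for `v`, `τ`, `θ` as in (1) there is a set `E` of
dimension at most `(M - 1 + τ) / (1 - θ)`, of measure zero if `θ < (1 - τ) / M`, such that for all `α` outside `E` and all
large `n` ALL integral vectors `c` with `‖c - v_n α‖ ≤ (v_n) ^ θ` define endomorphisms of `P^N` which increase all heights
of points of degree at most `D` and have no preperiodic point of degree at most `D`. The exponent of convergence of `b ^ n`,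
`b > 1`, is at most `0`. -/
theorem result (N D : ℕ) (hN : 1 ≤ N) (hD : 1 ≤ D) : ∃ d₀ : ℕ, ∀ d : ℕ, d₀ ≤ d → ∀ M : ℕ,
    M = (N + 1) * (N + d).choose N →
    (∀ (v : ℕ → ℝ) (τ θ : ℝ), (∀ n, 1 ≤ v n) → 0 ≤ τ → ExpLe v τ → θ < 1 →
      ∃ E : Set (Ix N d → ℝ), dimH E ≤ ENNReal.ofReal (((M : ℝ) - N + τ) / (1 - θ)) ∧
        (θ < (N - τ) / M → volume E = 0) ∧
        ∀ α : Ix N d → ℝ, α ∉ E → ∃ n₀ : ℕ, ∀ n : ℕ, n₀ ≤ n →
          ∀ c : Ix N d → ℤ, ‖vec c - v n • α‖ ≤ (v n) ^ θ → Good D c) ∧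
    (∀ θ : ℝ, 0 ≤ θ → θ < 1 →
      ∃ E : Set (Ix N d → ℝ), dimH E ≤ ENNReal.ofReal (1 + ((M : ℝ) - N) / (1 - θ)) ∧
        (1 + ((M : ℝ) - N) / (1 - θ) < M → volume E = 0) ∧
        ∀ α : Ix N d → ℝ, α ∉ E →
          {c : Ix N d → ℤ | ¬ Good D c ∧ ∃ r : ℝ, 0 < r ∧ ‖vec c - r • α‖ ≤ r ^ θ}.Finite) ∧
    (∀ (v : ℕ → ℝ) (τ θ : ℝ), (∀ n, 1 ≤ v n) → 0 ≤ τ → ExpLe v τ → θ < 1 →
      ∃ E : Set (Ix N d → ℝ), dimH E ≤ ENNReal.ofReal (((M : ℝ) - 1 + τ) / (1 - θ)) ∧
        (θ < (1 - τ) / M → volume E = 0) ∧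
        ∀ α : Ix N d → ℝ, α ∉ E → ∃ n₀ : ℕ, ∀ n : ℕ, n₀ ≤ n →
          ∀ c : Ix N d → ℤ, ‖vec c - v n • α‖ ≤ (v n) ^ θ →
            IsMorphism (sys c) ∧ IncreasesHeights D (sys c) ∧ ¬ HasPreperiodicPoint D (sys c)) ∧
    (∀ b : ℝ, 1 < b → ExpLe (fun n : ℕ => b ^ n) 0) := by
  classical
  obtain ⟨d₀, h₀⟩ := AlmostAllEndomorphisms.result N D hN hD
  refine ⟨d₀, fun d hd M hM => ?_⟩
  obtain ⟨h1, h2, ⟨C, hC, h3⟩, -⟩ := h₀ d hd
  have hMN : N + 1 ≤ M := by
    rw [hM]
    exact Nat.le_mul_of_pos_right _ (Nat.choose_pos (by omega))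
  have hMNr : (N : ℝ) + 1 ≤ M := by exact_mod_cast hMN
  have hN1 : (1 : ℝ) ≤ N := by exact_mod_cast hN
  have hM0 : (0 : ℝ) < M := by linarith
  have hfinS : ∀ H : ℕ, (Sys N d H).Finite := fun H => Set.finite_of_ncard_pos (by
    rw [h1 H]
    positivity)
  have hcardIx : Fintype.card (Ix N d) = M := by
    rw [Fintype.card_prod, Fintype.card_fin, card_E, hM]
  have hcardR : ((Fintype.card (Ix N d) : ℕ) : ℝ) = (M : ℝ) := by rw [hcardIx]
  have hne : Nonempty (Ix N d) := by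
    rw [← Fintype.card_pos_iff, hcardIx]
    omega
  -- a general count
  have hcount : ∀ (P : (Fin (N + 1) → MvPolynomial (Fin (N + 1)) ℤ) → Prop) (k : ℕ), k ≤ M → ∀ C' : ℝ, 0 ≤ C' →
      (∀ H : ℕ, 1 ≤ H → ({F | F ∈ Sys N d H ∧ P F}.ncard : ℝ) ≤ C' * (H : ℝ) ^ (M - k)) →
      ∀ ε : ℝ, 0 < ε → ∃ C'' : ℝ, ∀ H : ℕ, 1 ≤ H →
        ({c : Ix N d → ℤ | (∀ i, |c i| ≤ (H : ℤ)) ∧ P (sys c)}.ncard : ℝ) ≤
          C'' * (H : ℝ) ^ (((M : ℝ) - k) + ε) := by
    intro P k hk C' hC' hP ε hε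
    refine ⟨C', fun H hH => ?_⟩
    have hH1 : (1 : ℝ) ≤ H := by exact_mod_cast hH
    have h4 : {c : Ix N d → ℤ | (∀ i, |c i| ≤ (H : ℤ)) ∧ P (sys c)}.ncard ≤ {F | F ∈ Sys N d H ∧ P F}.ncard :=
      Set.ncard_le_ncard_of_injOn sys (fun c hc => ⟨sys_mem c hc.1, hc.2⟩) (sys_injective.injOn)
        ((hfinS H).subset fun F hF => hF.1)
    calc ({c : Ix N d → ℤ | (∀ i, |c i| ≤ (H : ℤ)) ∧ P (sys c)}.ncard : ℝ)
        ≤ ({F | F ∈ Sys N d H ∧ P F}.ncard : ℝ) := by exact_mod_cast h4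
      _ ≤ C' * (H : ℝ) ^ (M - k) := hP H hH
      _ = C' * (H : ℝ) ^ ((M : ℝ) - k) := by
          rw [← Real.rpow_natCast, Nat.cast_sub hk]
      _ ≤ C' * (H : ℝ) ^ (((M : ℝ) - k) + ε) :=
          mul_le_mul_of_nonneg_left (Real.rpow_le_rpow_of_exponent_le hH1 (by linarith)) hC'
  have hgood : ∀ (c : Ix N d → ℤ), ¬ (IsMorphism (sys c) ∧ ¬ IncreasesHeights D (sys c)) → Good D c := by
    intro c hc hm
    have h4 : IncreasesHeights D (sys c) := by
      by_contra hcon
      exact hc ⟨hm, hcon⟩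
    have hbd : ∀ x, |c x| ≤ (((Finset.univ.sup fun x => (c x).natAbs : ℕ)) : ℤ) := by
      intro x
      rw [Int.abs_eq_natAbs]
      exact_mod_cast Finset.le_sup (f := fun x => (c x).natAbs) (Finset.mem_univ x)
    exact ⟨h4, h2 _ (sys c) (sys_mem c hbd) hm h4⟩
  have hs1 : 0 ≤ (M : ℝ) - N := by linarith
  have hs2 : 0 ≤ (M : ℝ) - (1 : ℕ) := by push_cast; linarith
  have c1 := hcount (fun F => IsMorphism F ∧ ¬ IncreasesHeights D F) N (by omega) C hC.le
    (fun H hH => by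
      have h5 := (h3 H hH).2.1
      rw [hM]
      exact h5)
  have c2 := hcount (fun F => ¬ IsMorphism F) 1 (by omega) C hC.le
    (fun H hH => by
      have h5 := (h3 H hH).1
      rw [hM]
      exact h5)
  have w1 : ∀ (v : ℕ → ℝ) (τ θ : ℝ), (∀ n, 1 ≤ v n) → 0 ≤ τ → ExpLe v τ → θ < 1 →
      ∃ E : Set (Ix N d → ℝ), dimH E ≤ ENNReal.ofReal (((M : ℝ) - N + τ) / (1 - θ)) ∧
        (θ < (N - τ) / M → volume E = 0) ∧
        ∀ α : Ix N d → ℝ, α ∉ E → ∃ n₀ : ℕ, ∀ n : ℕ, n₀ ≤ n →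
          ∀ c : Ix N d → ℤ, ‖vec c - v n • α‖ ≤ (v n) ^ θ → Good D c := by
    intro v τ θ hv hτ hE hθ
    obtain ⟨E, hE1, hE2, hE3⟩ := windows_of_box
      (P := fun c : Ix N d → ℤ => IsMorphism (sys c) ∧ ¬ IncreasesHeights D (sys c)) hs1 c1 v τ θ hv hτ hE hθ
    refine ⟨E, hE1, fun hlt => hE2 ?_, fun α hα => ?_⟩
    · rw [hcardR, lt_sub_iff_add_lt, ← lt_sub_iff_add_lt', div_lt_iff₀ hM0]
      rw [lt_div_iff₀ hM0] at hlt
      linarith
    · obtain ⟨n₀, h⟩ := hE3 α hα
      exact ⟨n₀, fun n hn c hc => hgood c (h n hn c hc)⟩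
  refine ⟨w1, fun θ hθ0 hθ1 => ?_, fun v τ θ hv hτ hE hθ => ?_, fun b hb => expLe_geom b hb⟩
  · obtain ⟨E, hE1, hE2, hE3⟩ := rays_of_box
      (P := fun c : Ix N d → ℤ => IsMorphism (sys c) ∧ ¬ IncreasesHeights D (sys c)) hs1 c1 θ hθ0 hθ1
    refine ⟨E, hE1, fun hlt => hE2 ?_, fun α hα => ?_⟩
    · rw [hcardR]
      exact hlt
    · refine (hE3 α hα).subset ?_
      rintro c ⟨hc, hr⟩
      refine ⟨?_, hr⟩
      by_contra hcon
      exact hc (hgood c hcon)
  · obtain ⟨E1, hE1, hE1', hE1''⟩ := w1 v τ θ hv hτ hE hθ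
    obtain ⟨E2, hE2, hE2', hE2''⟩ := windows_of_box
      (P := fun c : Ix N d → ℤ => ¬ IsMorphism (sys c)) hs2 c2 v τ θ hv hτ hE hθ
    have h1θ : 0 < 1 - θ := by linarith
    refine ⟨E1 ∪ E2, ?_, fun hlt => ?_, fun α hα => ?_⟩
    · rw [dimH_union, max_le_iff]
      constructor
      · refine hE1.trans (ENNReal.ofReal_le_ofReal ?_)
        apply div_le_div_of_nonneg_right _ h1θ.le
        linarith
      · refine hE2.trans (ENNReal.ofReal_le_ofReal (le_of_eq ?_))
        push_cast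
        ring
    · rw [measure_union_null_iff]
      constructor
      · apply hE1'
        refine hlt.trans_le ?_
        apply div_le_div_of_nonneg_right _ hM0.le
        linarith
      · apply hE2'
        rw [hcardR, lt_sub_iff_add_lt, ← lt_sub_iff_add_lt', div_lt_iff₀ hM0]
        rw [lt_div_iff₀ hM0] at hlt
        push_cast
        linarith
    · obtain ⟨n1, hn1⟩ := hE1'' α (fun h => hα (Or.inl h))
      obtain ⟨n2, hn2⟩ := hE2'' α (fun h => hα (Or.inr h))
      refine ⟨max n1 n2, fun n hn c hc => ?_⟩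
      have hm : IsMorphism (sys c) := not_not.1 (hn2 n ((le_max_right _ _).trans hn) c hc)
      exact ⟨hm, hn1 n ((le_max_left _ _).trans hn) c hc hm⟩

end Pool.Agent.Results.MP_13bc7b_nt.EndomorphismsNearRays
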