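import Pool.Agent.V11286.RL.CovB
import Pool.Agent.Results.MP_13bc7b_nt.PositiveProportion

/-!
# Uniform boundedness of preperiodic points for one of `O(log H)` translates of EVERY system of height at most `H`

Let `N` be any dimension, `d ≥ 2` any degree and `M ≥ 1`. There are constants `C D` (`D = 1, 2, …`) such that for every
residue class `A` modulo `M` and every real cell (at distance at most `ε` from a real system `B` with coefficients in
`[-1, 1]`) there is a constant `L` such that for all large `H` and every `r ≥ L log H` there are `r` integral systems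
`G_1, …, G_r` of `N + 1` forms of degree `d`, with coefficients at most `2 H`, such that for EVERY integral system `F` with
coefficients at most `H` one of the systems `F + G_j` has coefficients at most `H`, is in the residue class and in the cell
and defines an endomorphism of `P^N` with at most `C D` preperiodic points in `P^N(K)`, for all number fields `K` of degree
at most `D` and all `D`.
-/

set_option autoImplicit false

open MvPolynomial Pool.Agent.H927R2.RD Pool.Agent.V11286.RL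
open Pool.Agent.Results.MP_13bc7b_nt.PositiveProportion

namespace Pool.Agent.Results.MP_13bc7b_nt.FewTranslatesCover

/-- **Theorem.** -/
theorem result (N d : ℕ) (hd : 2 ≤ d) (M : ℕ) (hM : 0 < M) : ∃ C : ℕ → ℕ,
    ∀ A : Fin (N + 1) → MvPolynomial (Fin (N + 1)) ℤ, (∀ i, (A i).IsHomogeneous d) →
    ∀ B : Fin (N + 1) → MvPolynomial (Fin (N + 1)) ℝ, (∀ i, (B i).IsHomogeneous d) →
    (∀ i μ, |coeff μ (B i)| ≤ 1) → ∀ ε : ℝ, 0 < ε →
    ∃ L : ℝ, ∃ H₀ : ℕ, ∀ H : ℕ, H₀ ≤ H → ∀ r : ℕ, L * Real.log H ≤ r →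
      ∃ G : Fin r → Fin (N + 1) → MvPolynomial (Fin (N + 1)) ℤ, (∀ j, G j ∈ Box (N + 1) d (2 * H)) ∧
        ∀ F ∈ Box (N + 1) d H, ∃ j, F + G j ∈ Box (N + 1) d H ∧
          (∀ i μ, (M : ℤ) ∣ coeff μ ((F + G j) i) - coeff μ (A i)) ∧
          (∀ i μ, |((coeff μ ((F + G j) i) : ℤ) : ℝ) - H * coeff μ (B i)| ≤ ε * H) ∧ Bounded C (F + G j) := by
  obtain ⟨C, hC⟩ := PositiveProportion.result N d hd M hM
  refine ⟨C, fun A hA B hB hB1 ε hε => ?_⟩
  obtain ⟨δ, hδ, H₀, hH⟩ := hC A hA B hB hB1 ε hε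
  set k : ℕ := Fintype.card (Idx (N + 1) d) with hk
  have h2k : (0 : ℝ) < 2 ^ k := by positivity
  have hc0 : 0 < δ / 2 ^ k := by positivity
  refine ⟨(2 * k + 1) / (δ / 2 ^ k), max H₀ 3, fun H hHH r hr => ?_⟩
  have hH3 : 3 ≤ H := le_of_max_le_right hHH
  have hH3' : (3 : ℝ) ≤ H := by exact_mod_cast hH3
  have h1 := hH H (le_of_max_le_left hHH)
  set S : Set (Fin (N + 1) → MvPolynomial (Fin (N + 1)) ℤ) := {F | F ∈ Box (N + 1) d H ∧
    (∀ i μ, (M : ℤ) ∣ coeff μ (F i) - coeff μ (A i)) ∧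
    (∀ i μ, |((coeff μ (F i) : ℤ) : ℝ) - H * coeff μ (B i)| ≤ ε * H) ∧ Bounded C F} with hS
  have hbox : ((Box (N + 1) d H).ncard : ℝ) = (2 * H + 1) ^ k := by
    rw [ncard_box]
    push_cast
    rfl
  have hbox2 : ((Box (N + 1) d (2 * H)).ncard : ℝ) ≤ 2 ^ k * (2 * H + 1) ^ k := by
    rw [ncard_box, ← mul_pow]
    push_cast
    apply pow_le_pow_left₀ (by positivity)
    linarith
  have hTf := H294DM.box_finite (N + 1) d H
  have hWf := H294DM.box_finite (N + 1) d (2 * H)
  have hSsub : S ⊆ Box (N + 1) d H := fun F hF => hF.1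
  have hSf : S.Finite := hTf.subset hSsub
  have hc : δ / 2 ^ k * ((Box (N + 1) d (2 * H)).ncard : ℝ) ≤ S.ncard := by
    refine le_trans ?_ h1
    rw [hbox]
    calc δ / 2 ^ k * ((Box (N + 1) d (2 * H)).ncard : ℝ) ≤ δ / 2 ^ k * (2 ^ k * (2 * H + 1) ^ k) :=
          mul_le_mul_of_nonneg_left hbox2 hc0.le
      _ = δ * (2 * H + 1) ^ k := by
          field_simp
  have hc1 : δ / 2 ^ k ≤ 1 := by
    have h2 : (S.ncard : ℝ) ≤ (Box (N + 1) d H).ncard := by
      exact_mod_cast Set.ncard_le_ncard hSsub hTf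
    have h3 : (0 : ℝ) < (Box (N + 1) d H).ncard := by
      rw [hbox]
      positivity
    have h4 : δ ≤ 1 := by
      by_contra hcon
      push Not at hcon
      have := mul_lt_mul_of_pos_right hcon h3
      linarith
    rw [div_le_one h2k]
    exact h4.trans (one_le_pow₀ (by norm_num))
  obtain ⟨G, hG1, hG2⟩ := cover_set (Box (N + 1) d H) S (Box (N + 1) d (2 * H)) hTf hSf hWf
    ⟨0, fun i => ⟨isHomogeneous_zero _ _ _, fun μ => by
      rw [Pi.zero_apply, coeff_zero, abs_zero]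
      positivity⟩⟩
    (fun u hu s hs i => ⟨(hs.1 i).1.sub (hu i).1, fun μ => by
      rw [Pi.sub_apply, coeff_sub]
      have e1 := (hs.1 i).2 μ
      have e2 := (hu i).2 μ
      push_cast
      rw [abs_le] at e1 e2 ⊢
      constructor <;> linarith [e1.1, e1.2, e2.1, e2.2]⟩) hc1 hc r
  refine ⟨G, hG1, fun F hF => ?_⟩
  have hlt : (({u | u ∈ Box (N + 1) d H ∧ ∀ i, u + G i ∉ S}.ncard : ℕ) : ℝ) < 1 := by
    refine hG2.trans_lt ?_
    rw [hbox]
    have hlog : 0 < Real.log H := Real.log_pos (by linarith)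
    rw [div_mul_eq_mul_div, div_le_iff₀ hc0] at hr
    have h5 : (1 - δ / 2 ^ k) ^ r ≤ Real.exp (-(δ / 2 ^ k) * r) := by
      have h6 : 1 - δ / 2 ^ k ≤ Real.exp (-(δ / 2 ^ k)) := by
        have := Real.add_one_le_exp (-(δ / 2 ^ k))
        linarith
      refine (pow_le_pow_left₀ (by linarith) h6 r).trans (le_of_eq ?_)
      rw [← Real.exp_nat_mul]
      congr 1
      ring
    have h7 : (2 * (H : ℝ) + 1) ^ k ≤ Real.exp (2 * k * Real.log H) := by
      have h8 : (2 * (H : ℝ) + 1) ≤ Real.exp (2 * Real.log H) := by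
        have h9 : Real.exp (2 * Real.log H) = (H : ℝ) * H := by
          rw [two_mul, Real.exp_add, Real.exp_log (by linarith)]
        rw [h9]
        nlinarith
      refine (pow_le_pow_left₀ (by positivity) h8 k).trans (le_of_eq ?_)
      rw [← Real.exp_nat_mul]
      congr 1
      ring
    calc (1 - δ / 2 ^ k) ^ r * (2 * (H : ℝ) + 1) ^ k ≤ Real.exp (-(δ / 2 ^ k) * r) * Real.exp (2 * k * Real.log H) :=
          mul_le_mul h5 h7 (by positivity) (Real.exp_pos _).le
      _ = Real.exp (-(δ / 2 ^ k) * r + 2 * k * Real.log H) := (Real.exp_add _ _).symm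
      _ < 1 := by
          rw [Real.exp_lt_one_iff]
          nlinarith
  have hempty : {u | u ∈ Box (N + 1) d H ∧ ∀ i, u + G i ∉ S} = ∅ := by
    have h8 : ({u | u ∈ Box (N + 1) d H ∧ ∀ i, u + G i ∉ S}).ncard < 1 := by exact_mod_cast hlt
    exact (Set.ncard_eq_zero (hTf.subset fun u hu => hu.1)).1 (by omega)
  by_contra hcon
  have h9 : F ∈ {u | u ∈ Box (N + 1) d H ∧ ∀ i, u + G i ∉ S} := ⟨hF, fun j hj => hcon ⟨j, hj⟩⟩
  rw [hempty] at h9
  exact h9

end Pool.Agent.Results.MP_13bc7b_nt.FewTranslatesCover
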