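import Mathlib
import Pool.Agent.Results.MP_13bc7b_nt.AllFieldsPolynomials
import Pool.Agent.H2N.NearSpace

/-!
# No preperiodic points of small degree, for all polynomials whose constant term is near a typical
# point of the real space of a number field

`K` is a number field of degree `n`, `K_ℝ = K ⊗ ℝ` its real space (`mixedSpace K`, the product of
the completions at the archimedean places) and `H` the absolute multiplicative height. For almost
every `z` in `K_ℝ`, for all `κ ∈ (0, 1)` and all `σ > (3 + κ) / 2`, all but finitely many `c ∈ K`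
with `|c - z|_v ≤ H(c) ^ (-σ)` at all archimedean places have the following property: ALL polynomials
`F` over `K` of any degree `d ≥ 2` with `F(0) = c` and arbitrary other coefficients push all points of
degree less than `d` over `K` away. (By Dirichlet's theorem there are infinitely many `c` as near to
`z`, if `σ < 2`.)
-/

set_option autoImplicit false

namespace Pool.Agent.Results.MP_13bc7b_nt.NearAlmostEveryPoint

open NumberField MeasureTheory Polynomial IsDedekindDomain
open Pool.Agent.Results.MP_13bc7b_nt.AllFieldsPolynomials (h PushesAway ContainsBad logNorm)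

section Defs

variable {K : Type} [Field K] [NumberField K]

/-- the absolute multiplicative height -/
noncomputable def H (c : K) : ℝ := Real.exp (h c)

open scoped Classical in
/-- `c` is within `H(c) ^ (-σ)` of the point `z` of the real space of `K`, at every archimedean
place -/
def Near (σ : ℝ) (z : mixedEmbedding.mixedSpace K) (c : K) : Prop :=
  dist (mixedEmbedding K c) z ≤ H c ^ (-σ)

/-- there is a polynomial `F` over `K` of some degree `d ≥ 2` with constant term `c` and a
preperiodic point of degree less than `d` over `K`, such that the bad primes `v` of the other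
coefficients (one of them is not integral at `v`, or the leading one is not a unit) are few:
`∑ log N v / n < κ (1 + h(c))` -/
def HasSmallPreperiodic (κ : ℝ) (c : K) : Prop :=
  ∃ F : K[X], 2 ≤ F.natDegree ∧ F.coeff 0 = c ∧
    ∃ T : Finset (HeightOneSpectrum (𝓞 K)), ContainsBad F T ∧ logNorm T < κ * (1 + h c) ∧
      ∃ (L : Type) (_ : Field L) (_ : NumberField L) (_ : Algebra K L),
        Module.finrank K L < F.natDegree ∧ ∃ (x : L) (m l : ℕ), m < l ∧
          (fun y : L => aeval y F)^[m] x = (fun y : L => aeval y F)^[l] x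

end Defs

section Aux

variable {K : Type} [Field K] [NumberField K]

lemma h_nonneg (c : K) : 0 ≤ h c :=
  div_nonneg (Height.zero_le_logHeight₁ c) (Nat.cast_nonneg _)

lemma one_le_H (c : K) : 1 ≤ H c := Real.one_le_exp (h_nonneg c)

lemma mono {κ r : ℝ} (hκ : κ ≤ r) {c : K} (hc : PushesAway r c) : PushesAway κ c := by
  intro F hd hF T hT L _ _ _ hL x k
  refine le_trans ?_ (hc F hd hF T hT L hL x k)
  have h1 : 0 ≤ 1 + h c := by linarith [h_nonneg c]
  have h2 : κ * (1 + h c) ≤ r * (1 + h c) := mul_le_mul_of_nonneg_right hκ h1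
  exact mul_le_mul_of_nonneg_left (by linarith) (by positivity)

lemma count {κ : ℝ} (hκ0 : 0 < κ) (hκ : κ < 1) : ∀ ε : ℝ, 0 < ε → ∃ C : ℝ, ∀ X : ℝ, 1 ≤ X →
    {c : K | c ∈ {c : K | ¬ PushesAway κ c} ∧ H c ≤ X}.Finite ∧
      ({c : K | c ∈ {c : K | ¬ PushesAway κ c} ∧ H c ≤ X}.ncard : ℝ) ≤
        C * X ^ ((Module.finrank ℚ K : ℝ) * ((3 + κ) / 2) + ε) := by
  intro ε hε
  have hn : (0 : ℝ) < Module.finrank ℚ K := AllFieldsPolynomials.n_pos
  obtain ⟨C, hC0, hC⟩ := AllFieldsPolynomials.result.1 κ (ε / Module.finrank ℚ K) hκ0 hκ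
    (by positivity)
  refine ⟨C ^ Module.finrank ℚ K, fun X hX => ?_⟩
  have hX0 : 0 < X := by linarith
  obtain ⟨h1, h2⟩ := hC K X hX
  have heq : {c : K | c ∈ {c : K | ¬ PushesAway κ c} ∧ H c ≤ X} =
      AllFieldsPolynomials.Exc K κ X := by
    ext c
    have h3 : H c ≤ X ↔ Height.logHeight₁ c ≤ Module.finrank ℚ K * Real.log X := by
      unfold H h
      rw [← Real.le_log_iff_exp_le hX0, div_le_iff₀ hn, mul_comm]
    constructor
    · rintro ⟨g1, g2⟩
      exact ⟨h3.1 g2, g1⟩
    · rintro ⟨g1, g2⟩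
      exact ⟨g2, h3.2 g1⟩
  rw [heq]
  refine ⟨h1.subset fun c hc => hc.1, h2.trans (le_of_eq ?_)⟩
  rw [mul_pow, ← Real.rpow_natCast (X ^ _), ← Real.rpow_mul hX0.le]
  congr 2
  field_simp
  ring

lemma fin_le (B : ℝ) : {c : K | H c ≤ B}.Finite := by
  have hn : (0 : ℝ) < Module.finrank ℚ K := AllFieldsPolynomials.n_pos
  refine (AllFieldsPolynomials.fin_El (K := K) (max B 1)).subset ?_
  intro c hc
  have h1 : H c ≤ max B 1 := le_trans hc (le_max_left _ _)
  show Height.logHeight₁ c ≤ Module.finrank ℚ K * Real.log (max B 1)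
  have h2 : h c ≤ Real.log (max B 1) :=
    (Real.le_log_iff_exp_le (lt_of_lt_of_le one_pos (le_max_right _ _))).2 h1
  unfold h at h2
  rw [div_le_iff₀ hn] at h2
  linarith

lemma H_rat (q : ℚ) : H q = max (q.num.natAbs : ℝ) q.den := by
  unfold H h
  rw [Module.finrank_self, Nat.cast_one, div_one, Rat.logHeight₁_eq_log_max, Real.exp_log]
  · push_cast
    rfl
  · have : 0 < max q.num.natAbs q.den := lt_of_lt_of_le q.den_pos (le_max_right _ _)
    exact_mod_cast this

lemma near_infinite {z : ℝ} (hz : Irrational z) {σ : ℝ} (hσ : σ < 2) :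
    {c : ℚ | |(c : ℝ) - z| ≤ H c ^ (-σ)}.Infinite := by
  have hA := Real.infinite_rat_abs_sub_lt_one_div_den_sq_of_irrational hz
  have hs : 0 < 2 - σ := by linarith
  have hz1 : 0 < |z| + 1 := by positivity
  have hfin : ({q : ℚ | |z - q| < 1 / (q.den : ℝ) ^ 2} \
      {c : ℚ | |(c : ℝ) - z| ≤ H c ^ (-σ)}).Finite := by
    refine (fin_le (K := ℚ) (((|z| + 1) ^ 2) ^ (1 / (2 - σ)))).subset ?_
    rintro q ⟨h1, h2⟩
    have h1' : |z - q| < 1 / (q.den : ℝ) ^ 2 := h1
    have h2' : H q ^ (-σ) < |(q : ℝ) - z| := not_le.1 h2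
    have hH1 := one_le_H q
    have hH0 : 0 < H q := by linarith
    have hden : (1 : ℝ) ≤ q.den := by exact_mod_cast q.den_pos
    have hden0 : (0 : ℝ) < q.den := by linarith
    have hclose : |z - q| ≤ 1 := by
      refine h1'.le.trans ?_
      rw [div_le_one (by positivity)]
      exact one_le_pow₀ hden
    have hq : |(q : ℝ)| ≤ |z| + 1 := by
      have : |(q : ℝ)| ≤ |z| + |z - q| := by
        have h3 : (q : ℝ) = z - (z - q) := by ring
        rw [h3]
        exact (abs_sub _ _).trans (le_of_eq (by ring_nf))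
      linarith
    have hnum : (q.num.natAbs : ℝ) = |(q : ℝ)| * q.den := by
      have h3 : ((q.num.natAbs : ℕ) : ℝ) = |((q.num : ℤ) : ℝ)| := by
        rw [Nat.cast_natAbs]
        push_cast
        rfl
      rw [h3]
      have h4 : ((q.num : ℤ) : ℝ) = (q : ℝ) * q.den := by
        have := Rat.mul_den_eq_num q
        exact_mod_cast this.symm
      rw [h4, abs_mul, abs_of_pos hden0]
    have hHle : H q ≤ (|z| + 1) * q.den := by
      rw [H_rat]
      refine max_le ?_ ?_
      · rw [hnum]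
        exact mul_le_mul_of_nonneg_right hq hden0.le
      · exact le_mul_of_one_le_left hden0.le (by linarith [abs_nonneg z])
    have h5 : H q ^ (-σ) < (|z| + 1) ^ 2 / H q ^ 2 := by
      rw [abs_sub_comm] at h2'
      refine h2'.trans (h1'.trans_le ?_)
      rw [div_le_div_iff₀ (by positivity) (by positivity), one_mul, ← mul_pow]
      exact pow_le_pow_left₀ hH0.le hHle 2
    have h6 : H q ^ (2 - σ) < (|z| + 1) ^ 2 := by
      rw [lt_div_iff₀ (by positivity)] at h5
      have h7 : H q ^ (2 - σ) = H q ^ (-σ) * H q ^ 2 := by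
        rw [← Real.rpow_natCast (H q) 2, ← Real.rpow_add hH0]
        congr 1
        push_cast
        ring
      rw [h7]
      exact h5
    show H q ≤ _
    have h8 : H q = (H q ^ (2 - σ)) ^ (1 / (2 - σ)) := by
      rw [← Real.rpow_mul hH0.le, mul_one_div_cancel hs.ne', Real.rpow_one]
    rw [h8]
    exact Real.rpow_le_rpow (by positivity) h6.le (by positivity)
  intro hcon
  exact hA ((hfin.union hcon).subset fun q hq => by
    by_cases h3 : q ∈ {c : ℚ | |(c : ℝ) - z| ≤ H c ^ (-σ)}
    · exact Or.inr h3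
    · exact Or.inl ⟨hq, h3⟩)

/-- all `κ` at once -/
lemma all_kappa {V : Type} [NormedAddCommGroup V] [NormedSpace ℝ V] [FiniteDimensional ℝ V]
    [MeasurableSpace V] [BorelSpace V] (μ : Measure V) [μ.IsAddHaarMeasure]
    (hV : Module.finrank ℝ V = Module.finrank ℚ K) (φ : K → V) :
    ∀ᵐ z ∂μ, ∀ κ σ : ℝ, 0 < κ → κ < 1 → (3 + κ) / 2 < σ →
      {c : K | dist (φ c) z ≤ H c ^ (-σ) ∧ ¬ PushesAway κ c}.Finite := by
  have hn : 0 < Module.finrank ℚ K := Module.finrank_pos
  have hnR : (0 : ℝ) < Module.finrank ℚ K := by exact_mod_cast hn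
  have hr : ∀ r : ℚ, ∀ᵐ z ∂μ, 0 < (r : ℝ) → (r : ℝ) < 1 → ∀ σ : ℝ, (3 + (r : ℝ)) / 2 < σ →
      {c : K | dist (φ c) z ≤ H c ^ (-σ) ∧ ¬ PushesAway (r : ℝ) c}.Finite := by
    intro r
    by_cases hr0 : 0 < (r : ℝ) ∧ (r : ℝ) < 1
    · have h1 := Pool.Agent.H2N.ae_family_space μ (by rw [hV]; exact hn) φ (fun c : K => H c)
        one_le_H (s := (Module.finrank ℚ K : ℝ) * ((3 + (r : ℝ)) / 2)) (by nlinarith [hr0.1])
        (J := Unit) (fun _ => {c : K | ¬ PushesAway (r : ℝ) c}) (fun _ => count hr0.1 hr0.2)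
      filter_upwards [h1] with z hz _ _ σ hσ
      have h2 := hz σ (by rw [hV, mul_div_cancel_left₀ _ hnR.ne']; exact hσ) ()
      exact h2.subset fun c hc => ⟨hc.2, hc.1⟩
    · refine Filter.Eventually.of_forall fun z h1 h2 => absurd ⟨h1, h2⟩ hr0
  filter_upwards [ae_all_iff.2 hr] with z hz κ σ hκ0 hκ hσ
  obtain ⟨r, hr1, hr2⟩ : ∃ r : ℚ, κ < (r : ℝ) ∧ (r : ℝ) < min 1 (2 * σ - 3) :=
    exists_rat_btwn (lt_min hκ (by linarith))
  have hr3 := hr2.trans_le (min_le_left _ _)
  have hr4 := hr2.trans_le (min_le_right _ _)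
  refine (hz r (hκ0.trans hr1) hr3 σ (by linarith)).subset ?_
  rintro c ⟨g1, g2⟩
  exact ⟨g1, fun g3 => g2 (mono hr1.le g3)⟩

end Aux

open scoped Classical in
/-- **Theorem.** `K` is any number field, of degree `n`.
(1) For almost every `z` in the real space of `K`, for all `κ ∈ (0, 1)` and `σ > (3 + κ) / 2`: all but
finitely many `c ∈ K` with `|c - z|_v ≤ H(c) ^ (-σ)` at all archimedean places have the property
`PushesAway κ` (for all polynomials `F` over `K` with `F(0) = c`, of any degree `d ≥ 2`).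
(2) For the same `z`, `κ`, `σ`, apart from finitely many `c` no such polynomial with few bad primes has
a preperiodic point of degree less than `d` over `K`.
(3) For every map `φ` from `K` to a metric space, every `κ ∈ (0, 1)` and `σ > 0` the points `z` for
which infinitely many `c` without `PushesAway κ` satisfy `dist (φ c, z) ≤ H(c) ^ (-σ)` form a set of
Hausdorff dimension at most `n (3 + κ) / (2 σ)`.
(4) `K = ℚ`: for almost every real number `z`, for all `κ ∈ (0, 1)` and `σ > (3 + κ) / 2`: all but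
finitely many rational `c` with `|c - z| ≤ H(c) ^ (-σ)` have the property `PushesAway κ`, and there are
infinitely many rational `c` with `|c - z| ≤ H(c) ^ (-σ)` if `σ < 2`. -/
theorem result :
    (∀ (K : Type) [Field K] [NumberField K], ∀ᵐ z : mixedEmbedding.mixedSpace K,
      ∀ κ σ : ℝ, 0 < κ → κ < 1 → (3 + κ) / 2 < σ →
        {c : K | Near σ z c ∧ ¬ PushesAway κ c}.Finite) ∧
    (∀ (K : Type) [Field K] [NumberField K], ∀ᵐ z : mixedEmbedding.mixedSpace K,
      ∀ κ σ : ℝ, 0 < κ → κ < 1 → (3 + κ) / 2 < σ →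
        {c : K | Near σ z c ∧ HasSmallPreperiodic κ c}.Finite) ∧
    (∀ (K : Type) [Field K] [NumberField K] (M : Type) [MetricSpace M] (φ : K → M) (κ σ : ℝ),
      0 < κ → κ < 1 → 0 < σ →
        dimH {z : M | {c : K | dist (φ c) z ≤ H c ^ (-σ) ∧ ¬ PushesAway κ c}.Infinite} ≤
          ENNReal.ofReal (Module.finrank ℚ K * (3 + κ) / (2 * σ))) ∧
    (∀ᵐ z : ℝ, ∀ κ σ : ℝ, 0 < κ → κ < 1 → (3 + κ) / 2 < σ →
      {c : ℚ | |(c : ℝ) - z| ≤ H c ^ (-σ) ∧ ¬ PushesAway κ c}.Finite ∧
        (σ < 2 → {c : ℚ | |(c : ℝ) - z| ≤ H c ^ (-σ)}.Infinite)) := by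
  have main : ∀ (K : Type) [Field K] [NumberField K], ∀ᵐ z : mixedEmbedding.mixedSpace K,
      ∀ κ σ : ℝ, 0 < κ → κ < 1 → (3 + κ) / 2 < σ →
        {c : K | Near σ z c ∧ ¬ PushesAway κ c}.Finite := by
    intro K _ _
    exact all_kappa (K := K) volume (mixedEmbedding.finrank K) (fun c : K => mixedEmbedding K c)
  refine ⟨main, ?_, ?_, ?_⟩
  · intro K _ _
    filter_upwards [main K] with z hz κ σ hκ0 hκ hσ
    refine (hz κ σ hκ0 hκ hσ).subset ?_
    rintro c ⟨g1, F, hd, hF, T, hT, hs, L, i1, i2, i3, hL, x, m, l, hml, heq⟩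
    refine ⟨g1, fun g2 => ?_⟩
    exact AllFieldsPolynomials.part_five g2 F hd hF T hT hs L hL x m l hml heq
  · intro K _ _ M _ φ κ σ hκ0 hκ hσ
    have hnR : (0 : ℝ) < Module.finrank ℚ K := AllFieldsPolynomials.n_pos
    have h1 : ∀ ε : ℝ, 0 < ε → ∃ C : ℝ, ∀ X : ℝ, 1 ≤ X →
        {t : {c : K // ¬ PushesAway κ c} | H t.1 ≤ X}.Finite ∧
          ({t : {c : K // ¬ PushesAway κ c} | H t.1 ≤ X}.ncard : ℝ) ≤
            C * X ^ ((Module.finrank ℚ K : ℝ) * ((3 + κ) / 2) + ε) := by
      intro ε hε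
      obtain ⟨C, hC⟩ := count (K := K) hκ0 hκ ε hε
      refine ⟨C, fun X hX => ?_⟩
      obtain ⟨g1, g2⟩ := hC X hX
      have himg : Subtype.val '' {t : {c : K // ¬ PushesAway κ c} | H t.1 ≤ X} =
          {c : K | c ∈ {c : K | ¬ PushesAway κ c} ∧ H c ≤ X} := by
        ext c
        constructor
        · rintro ⟨u, hu, rfl⟩
          exact ⟨u.2, hu⟩
        · rintro ⟨g3, g4⟩
          exact ⟨⟨c, g3⟩, g4, rfl⟩
      refine ⟨Set.Finite.of_finite_image (by rw [himg]; exact g1) Subtype.val_injective.injOn, ?_⟩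
      rw [← Set.ncard_image_of_injective _ Subtype.val_injective, himg]
      exact g2
    have h2 := Pool.Agent.H107.ME.dim_approx (fun t : {c : K // ¬ PushesAway κ c} => φ t.1)
      (fun t => H t.1) (fun t => one_le_H t.1)
      (s := (Module.finrank ℚ K : ℝ) * ((3 + κ) / 2)) (by positivity) hσ h1
    have h3 : {z : M | {c : K | dist (φ c) z ≤ H c ^ (-σ) ∧ ¬ PushesAway κ c}.Infinite} =
        {z : M | {t : {c : K // ¬ PushesAway κ c} | dist (φ t.1) z ≤ H t.1 ^ (-σ)}.Infinite} := by
      ext z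
      have himg : Subtype.val '' {t : {c : K // ¬ PushesAway κ c} |
          dist (φ t.1) z ≤ H t.1 ^ (-σ)} =
          {c : K | dist (φ c) z ≤ H c ^ (-σ) ∧ ¬ PushesAway κ c} := by
        ext c
        constructor
        · rintro ⟨u, hu, rfl⟩
          exact ⟨hu, u.2⟩
        · rintro ⟨g3, g4⟩
          exact ⟨⟨c, g4⟩, g3, rfl⟩
      show Set.Infinite _ ↔ Set.Infinite _
      rw [← himg, Set.infinite_image_iff Subtype.val_injective.injOn]
    rw [h3]
    refine h2.trans (le_of_eq ?_)
    congr 1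
    field_simp
  · have hV : Module.finrank ℝ ℝ = Module.finrank ℚ ℚ := by
      rw [Module.finrank_self, Module.finrank_self]
    have h1 := all_kappa (K := ℚ) (volume : Measure ℝ) hV (fun c : ℚ => (c : ℝ))
    have h2 : ∀ᵐ z : ℝ, Irrational z := by
      filter_upwards [(Set.countable_range ((↑) : ℚ → ℝ)).ae_notMem volume] with z hz
      exact hz
    filter_upwards [h1, h2] with z hz hirr κ σ hκ0 hκ hσ
    exact ⟨hz κ σ hκ0 hκ hσ, fun h => near_infinite hirr h⟩

end Pool.Agent.Results.MP_13bc7b_nt.NearAlmostEveryPoint
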